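import Pool.Agent.MBX.Stmts

/-!
# MBX: elementary inequality (AMG)
-/

set_option autoImplicit false

noncomputable section

namespace Pool.Agent.MBX.H68

open Pool.Agent.MBX

theorem amg : AmgStmt := by
  intro s a eta lam hs ha heta hlam
  have hae : 0 < a + eta := by linarith
  obtain ⟨q, hq⟩ : ∃ q : ℝ, q = (a + eta)⁻¹ := ⟨_, rfl⟩
  have hq0 : 0 < q := by rw [hq]; exact inv_pos.2 hae
  have hqa : (a + eta) * q = 1 := by rw [hq]; exact mul_inv_cancel₀ hae.ne'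
  have haq : a * q ≤ 1 := by nlinarith [mul_pos heta hq0]
  have hsa : 0 ≤ s * a := mul_nonneg (by linarith) ha
  obtain ⟨R, hR⟩ : ∃ R : ℝ, R = Real.sqrt (1 + s * a) := ⟨_, rfl⟩
  have hR0 : 0 < R := by rw [hR]; exact Real.sqrt_pos.2 (by linarith)
  have hRsq : R ^ 2 = 1 + s * a := by rw [hR]; exact Real.sq_sqrt (by linarith)
  have h1 : R ≤ s + a / 2 := by
    have h : R ^ 2 ≤ (s + a / 2) ^ 2 := by rw [hRsq]; nlinarith [sq_nonneg a]
    exact (le_abs_self _).trans (abs_le_of_sq_le_sq h (by linarith))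
  have h2 : R * q ≤ (s + 3 * q) / 2 := by
    have h : (R * q) ^ 2 ≤ ((s + 3 * q) / 2) ^ 2 := by
      rw [mul_pow, hRsq]
      have h3 : s * q * (a * q) ≤ s * q * 1 :=
        mul_le_mul_of_nonneg_left haq (by positivity)
      nlinarith [sq_nonneg s, mul_pos (show (0 : ℝ) < s by linarith) hq0, sq_nonneg q]
    exact (le_abs_self _).trans (abs_le_of_sq_le_sq h (by positivity))
  have h1a : (1 + a) * q ≤ 1 + q := by nlinarith [mul_pos heta hq0]
  have h1a0 : 0 < 1 + a := by linarith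
  have hmain : R * ((1 + a) * q) ≤ 3 / 2 * s + a / 2 + 3 / 2 * q := by
    have h3 : R * ((1 + a) * q) ≤ R * (1 + q) := mul_le_mul_of_nonneg_left h1a hR0.le
    linarith
  rw [← hR, ← hq]
  -- G = R⁻¹ (a + eta) / (1 + a)
  obtain ⟨G, hG⟩ : ∃ G : ℝ, G = R⁻¹ * ((a + eta) / (1 + a)) := ⟨_, rfl⟩
  have hG0 : 0 < G := by rw [hG]; positivity
  have hGinv : R * ((1 + a) * q) = G⁻¹ := by
    rw [hG, hq]
    field_simp
  rw [← hG]
  rw [hGinv] at hmain
  have h4 : 1 / (2 * lam) * G⁻¹ ≤ 1 / (2 * lam) * (3 / 2 * s + a / 2 + 3 / 2 * q) :=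
    mul_le_mul_of_nonneg_left hmain (by positivity)
  have h5 : 1 ≤ lam / 2 * G + 1 / (2 * lam) * G⁻¹ := by
    have h6 : lam / 2 * G + 1 / (2 * lam) * G⁻¹ - 1 = (lam * G - 1) ^ 2 / (2 * lam * G) := by
      field_simp
      ring
    have h7 : 0 ≤ (lam * G - 1) ^ 2 / (2 * lam * G) := by positivity
    linarith
  linarith

end Pool.Agent.MBX.H68
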