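import Pool.Agent.MBX.Stmts
import Pool.Agent.Helper61_Pauli.GaussChange
import Pool.Agent.Helper61_Pauli.GaussMoment

/-!
# MBX: moments under the squeezed Gaussian (UA2)
-/

set_option autoImplicit false

open MeasureTheory ProbabilityTheory

noncomputable section

namespace Pool.Agent.MBX.H68

open Pool.Agent.MBX Pool.Agent.Helper49_Pauli

theorem quad_diag {ι : Type} [Fintype ι] [DecidableEq ι] (kap : ℝ) (y : ι → ℝ) :
    quad (fun i j : ι => if i = j then kap else 0) y = kap * nn y := by
  unfold quad nn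
  rw [Finset.mul_sum]
  refine Finset.sum_congr rfl fun i _ => ?_
  rw [Finset.sum_eq_single i]
  · simp only [if_true]
    ring
  · intro j _ hj
    show (if i = j then kap else 0) * y i * y j = 0
    rw [if_neg (Ne.symm hj)]
    ring
  · intro h
    exact absurd (Finset.mem_univ i) h

theorem norm_sq_eq {ι : Type} [Fintype ι] (z : EuclideanSpace ℝ ι) :
    ‖z‖ ^ 2 = nn (fun i => z i) := by
  rw [EuclideanSpace.norm_sq_eq]
  unfold nn
  refine Finset.sum_congr rfl fun i _ => ?_
  rw [Real.norm_eq_abs, sq_abs]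

theorem ua2 : Ua2Stmt := by
  intro ι _ _ kap hkap
  have hk : 0 < 1 + kap := by linarith
  obtain ⟨T, Z, hZ, hT, hG⟩ := Pool.Agent.Helper61_Pauli.gaussChange ι
    (fun i j : ι => if i = j then kap else 0) 0
    (by
      intro i j
      by_cases h : i = j
      · rw [if_pos h, if_pos h.symm]
      · rw [if_neg h, if_neg (Ne.symm h)])
    (by
      intro y
      rw [quad_diag]
      exact mul_nonneg hkap (Finset.sum_nonneg fun i _ => sq_nonneg _))
  have hT2 : ∀ z, ‖T z‖ ^ 2 = 1 / (1 + kap) * ‖z‖ ^ 2 := by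
    intro z
    have h1 := hT z
    rw [quad_diag, ← norm_sq_eq (T z)] at h1
    rw [← h1]
    field_simp
  let l : ι → EuclideanSpace ℝ ι →ₗ[ℝ] ℝ := fun i =>
    { toFun := fun z => T z i
      map_add' := by intro a b; simp
      map_smul' := by intro a b; simp }
  have hl : ∀ i z, l i z = T z i := fun i z => rfl
  have hlb : ∀ i z, l i z ^ 2 ≤ 1 / (1 + kap) * ‖z‖ ^ 2 := by
    intro i z
    rw [← hT2, norm_sq_eq, hl]
    unfold nn
    exact Finset.single_le_sum (f := fun i => (T z i) ^ 2) (fun j _ => sq_nonneg _)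
      (Finset.mem_univ i)
  have hb0 : 0 ≤ 1 / (1 + kap) := by positivity
  have hmom := fun i j => Pool.Agent.Helper61_Pauli.gaussMoment ι (l i) (l j) _ _ hb0 hb0
    (hlb i) (hlb j)
  have hml : ∀ i, Measurable fun z => l i z := fun i =>
    (LinearMap.toContinuousLinearMap (l i)).continuous.measurable
  have hmnn : Measurable fun y : ι → ℝ => nn y := by
    unfold nn
    fun_prop
  have hsplit : ∀ (y : EuclideanSpace ℝ ι) (r : ℝ),
      ENNReal.ofReal (squeezed (fun i j : ι => if i = j then kap else 0) 0 (fun i => y i) ^ 2 * r)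
        = ENNReal.ofReal (squeezed (fun i j : ι => if i = j then kap else 0) 0
          (fun i => y i) ^ 2) * ENNReal.ofReal r := fun y r =>
    ENNReal.ofReal_mul (sq_nonneg _)
  refine ⟨Z, hZ, ?_, ?_, ?_⟩
  · have h1 := hG (fun _ => 1) measurable_const
    simp only [mul_one] at h1
    rw [h1]
    simp
  · have h1 := hG (fun y => ENNReal.ofReal (nn y)) hmnn.ennreal_ofReal
    calc ∫⁻ y, ENNReal.ofReal (squeezed (fun i j : ι => if i = j then kap else 0) 0
            (fun i => y i) ^ 2 * nn fun i => y i) ∂stdGaussian (EuclideanSpace ℝ ι)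
        = ENNReal.ofReal Z * ∫⁻ z, ENNReal.ofReal (nn fun i => (0 : ι → ℝ) i + T z i)
            ∂stdGaussian (EuclideanSpace ℝ ι) := by
          rw [← h1]
          exact lintegral_congr fun y => hsplit y _
      _ = ENNReal.ofReal Z * ∫⁻ z, ∑ i, ENNReal.ofReal (l i z ^ 2)
            ∂stdGaussian (EuclideanSpace ℝ ι) := by
          congr 1
          refine lintegral_congr fun z => ?_
          rw [← ENNReal.ofReal_sum_of_nonneg fun i _ => sq_nonneg _]
          congr 1
          unfold nn
          refine Finset.sum_congr rfl fun i _ => ?_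
          show ((0 : ℝ) + (T z) i) ^ 2 = ((T z) i) ^ 2
          rw [zero_add]
      _ = ENNReal.ofReal Z * ∑ i, ∫⁻ z, ENNReal.ofReal (l i z ^ 2)
            ∂stdGaussian (EuclideanSpace ℝ ι) := by
          rw [lintegral_finsetSum]
          exact fun i _ => ((hml i).pow_const 2).ennreal_ofReal
      _ ≤ ENNReal.ofReal Z * ∑ _i : ι, ENNReal.ofReal (1 / (1 + kap)) :=
          mul_le_mul_right (Finset.sum_le_sum fun i _ => (hmom i i).2.1) _
      _ = ENNReal.ofReal (Z * (Fintype.card ι / (1 + kap))) := by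
          rw [← ENNReal.ofReal_sum_of_nonneg fun i _ => hb0, ← ENNReal.ofReal_mul hZ.le]
          congr 2
          rw [Finset.sum_const, Finset.card_univ, nsmul_eq_mul]
          ring
  · have h1 := hG (fun y => ENNReal.ofReal (nn y ^ 2)) (hmnn.pow_const 2).ennreal_ofReal
    calc ∫⁻ y, ENNReal.ofReal (squeezed (fun i j : ι => if i = j then kap else 0) 0
            (fun i => y i) ^ 2 * nn (fun i => y i) ^ 2) ∂stdGaussian (EuclideanSpace ℝ ι)
        = ENNReal.ofReal Z * ∫⁻ z, ENNReal.ofReal ((nn fun i => (0 : ι → ℝ) i + T z i) ^ 2)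
            ∂stdGaussian (EuclideanSpace ℝ ι) := by
          rw [← h1]
          exact lintegral_congr fun y => hsplit y _
      _ = ENNReal.ofReal Z * ∫⁻ z, ∑ i, ∑ j, ENNReal.ofReal (l i z ^ 2 * l j z ^ 2)
            ∂stdGaussian (EuclideanSpace ℝ ι) := by
          congr 1
          refine lintegral_congr fun z => ?_
          have h2 : ∀ i, ∑ j, ENNReal.ofReal (l i z ^ 2 * l j z ^ 2) =
              ENNReal.ofReal (∑ j, l i z ^ 2 * l j z ^ 2) := fun i =>
            (ENNReal.ofReal_sum_of_nonneg fun j _ => by positivity).symm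
          rw [Finset.sum_congr rfl fun i _ => h2 i,
            ← ENNReal.ofReal_sum_of_nonneg fun i _ => Finset.sum_nonneg fun j _ => by positivity]
          congr 1
          unfold nn
          rw [pow_two, Finset.sum_mul_sum]
          refine Finset.sum_congr rfl fun i _ => Finset.sum_congr rfl fun j _ => ?_
          show ((0 : ℝ) + (T z) i) ^ 2 * ((0 : ℝ) + (T z) j) ^ 2 = ((T z) i) ^ 2 * ((T z) j) ^ 2
          rw [zero_add, zero_add]
      _ = ENNReal.ofReal Z * ∑ i, ∑ j, ∫⁻ z, ENNReal.ofReal (l i z ^ 2 * l j z ^ 2)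
            ∂stdGaussian (EuclideanSpace ℝ ι) := by
          have hm2 : ∀ i j, Measurable fun z => ENNReal.ofReal (l i z ^ 2 * l j z ^ 2) :=
            fun i j => (((hml i).pow_const 2).mul ((hml j).pow_const 2)).ennreal_ofReal
          rw [lintegral_finsetSum _ fun i _ => Finset.measurable_sum _ fun j _ => hm2 i j]
          congr 1
          refine Finset.sum_congr rfl fun i _ => ?_
          exact lintegral_finsetSum _ fun j _ => hm2 i j
      _ ≤ ENNReal.ofReal Z * ∑ _i : ι, ∑ _j : ι,
            ENNReal.ofReal (3 * (1 / (1 + kap)) * (1 / (1 + kap))) :=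
          mul_le_mul_right (Finset.sum_le_sum fun i _ => Finset.sum_le_sum fun j _ =>
            (hmom i j).2.2) _
      _ = ENNReal.ofReal (Z * (3 * (Fintype.card ι : ℝ) ^ 2 / (1 + kap) ^ 2)) := by
          have hb3 : 0 ≤ 3 * (1 / (1 + kap)) * (1 / (1 + kap)) := by positivity
          rw [← ENNReal.ofReal_sum_of_nonneg fun j _ => hb3,
            ← ENNReal.ofReal_sum_of_nonneg fun i _ => Finset.sum_nonneg fun j _ => hb3,
            ← ENNReal.ofReal_mul hZ.le]
          congr 2
          simp only [Finset.sum_const, Finset.card_univ, nsmul_eq_mul]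
          field_simp

end Pool.Agent.MBX.H68
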